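import Pool.Agent.H17.Exp.Main

/-!
# Turan numbers of expansions of graphs with small crosscut number, in all uniformities

Q1 of MP_e3cf1a_co asks for the order of magnitude of `ex₃(n, G⁺)` for graphs `G` with
`σ(G⁺) = 3`. The theorem below shows, for every uniformity `r ≥ 3` and every graph `G` with
`2 ≤ σ(G⁺) ≤ r`, that the order of magnitude of `ex_r(n, G^(r))` is `n ^ (r - 1)`, with explicit
bounds for all `n`. The case `r = 3`, `σ(G⁺) = 3` answers Q1. More generally this holds for all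
graphs `G` with `σ(G⁺) ≥ 2` for which the removal of at most `r - 3` vertices leaves a graph of
crosscut number at most three, for instance for the complete graph on `r` vertices.
-/

set_option autoImplicit false

namespace Pool.Agent.Results.MP_e3cf1a_co.AllUniformities

open Finset Nat Pool.Agent.H17.Exp

universe u

theorem result (V : Type u) [Fintype V] (G : SimpleGraph V) (r : ℕ) (hr : 3 ≤ r)
    (h2 : 2 ≤ sigma G 3)
    (h3 : sigma G 3 ≤ r ∨ ∃ S : Finset V, S.card ≤ r - 3 ∧ sigma (remove G S) 3 ≤ 3) :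
    sigma G r = sigma G 3 ∧
    (∀ n : ℕ, (sigma G 3 - 1) * (n + 1 - sigma G 3).choose (r - 1) ≤ ex G r n ∧
      2 * r ! * ex G r n ≤ (2 * (Fintype.card V + 3) + r * (r - 1) * (r - 2) ^ 2 *
        (Fintype.card V + (r - 2) * Nat.card G.edgeSet)) * n ^ (r - 1)) ∧
    (fun n : ℕ => (ex G r n : ℝ)) =Θ[Filter.atTop] fun n : ℕ => (n : ℝ) ^ (r - 1) := by
  classical
  obtain ⟨S, hS, hσ⟩ : ∃ S : Finset V, S.card ≤ r - 3 ∧ sigma (remove G S) 3 ≤ 3 := by
    rcases h3 with h3 | h3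
    · exact exists_remove_of_sigma G (by omega) hr h3
    · exact h3
  have hbdd : ∀ n, BddAbove {m | ∃ H : Finset (Finset (Fin n)),
      (∀ e ∈ H, e.card = r) ∧ ¬ HasCopy G r H ∧ H.card = m} :=
    fun n => ⟨_, by rintro c ⟨H, -, -, rfl⟩; exact card_le_univ H⟩
  have hne : ∀ n, {m | ∃ H : Finset (Finset (Fin n)),
      (∀ e ∈ H, e.card = r) ∧ ¬ HasCopy G r H ∧ H.card = m}.Nonempty := fun n => by
    obtain ⟨H, a1, a2, a3⟩ := lower G hr n
    exact ⟨_, H, a1, a2 (by omega), rfl⟩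
  have hlow : ∀ n : ℕ, (sigma G 3 - 1) * (n + 1 - sigma G 3).choose (r - 1) ≤ ex G r n := by
    intro n
    obtain ⟨H, a1, a2, a3⟩ := lower G hr n
    exact a3.trans (le_csSup (hbdd n) ⟨H, a1, a2 (by omega), rfl⟩)
  have hup : ∀ n : ℕ, 2 * r ! * ex G r n ≤ (2 * (Fintype.card V + 3) +
      r * (r - 1) * (r - 2) ^ 2 * (Fintype.card V + (r - 2) * Nat.card G.edgeSet)) *
        n ^ (r - 1) := by
    intro n
    obtain ⟨H, a1, a2, a3⟩ := Nat.sSup_mem (hne n) (hbdd n)
    have h4 := upper G h2 hr S hS hσ n H a1 a2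
    rw [a3] at h4
    exact h4
  refine ⟨sigma_eq hr, fun n => ⟨hlow n, hup n⟩, ?_, ?_⟩
  · refine Asymptotics.IsBigO.of_bound ((2 * (Fintype.card V + 3) + r * (r - 1) * (r - 2) ^ 2 *
        (Fintype.card V + (r - 2) * Nat.card G.edgeSet) : ℕ) : ℝ)
      (Filter.Eventually.of_forall fun n => ?_)
    rw [Real.norm_natCast, Real.norm_of_nonneg (by positivity)]
    have h4 : ex G r n ≤ 2 * r ! * ex G r n :=
      Nat.le_mul_of_pos_left _ (Nat.mul_pos two_pos (Nat.factorial_pos r))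
    exact_mod_cast h4.trans (hup n)
  · refine Asymptotics.IsBigO.of_bound ((2 : ℝ) ^ (r - 1) * (r - 1).factorial)
      (Filter.eventually_atTop.2 ⟨2 * (r + sigma G 3), fun n hn => ?_⟩)
    rw [Real.norm_natCast, Real.norm_of_nonneg (by positivity)]
    have h4 : (n : ℝ) ≤ 2 * ((n + 1 - sigma G 3 + 1 - (r - 1) : ℕ) : ℝ) := by
      have : n ≤ 2 * (n + 1 - sigma G 3 + 1 - (r - 1)) := by omega
      exact_mod_cast this
    have h5 := Nat.pow_le_choose (α := ℝ) (r - 1) (n + 1 - sigma G 3)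
    have h6 : (0 : ℝ) < (r - 1).factorial := by exact_mod_cast Nat.factorial_pos _
    rw [div_le_iff₀ h6] at h5
    have h7 : (n + 1 - sigma G 3).choose (r - 1) ≤ ex G r n :=
      (Nat.le_mul_of_pos_left _ (by omega)).trans (hlow n)
    have h8 : (((n + 1 - sigma G 3).choose (r - 1) : ℕ) : ℝ) ≤ ex G r n := by exact_mod_cast h7
    calc (n : ℝ) ^ (r - 1) ≤ (2 * ((n + 1 - sigma G 3 + 1 - (r - 1) : ℕ) : ℝ)) ^ (r - 1) :=
          pow_le_pow_left₀ (by positivity) h4 _
      _ = 2 ^ (r - 1) * ((n + 1 - sigma G 3 + 1 - (r - 1) : ℕ) : ℝ) ^ (r - 1) := by rw [mul_pow]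
      _ ≤ 2 ^ (r - 1) * (((n + 1 - sigma G 3).choose (r - 1) : ℕ) * (r - 1).factorial) := by
          gcongr
      _ ≤ 2 ^ (r - 1) * (ex G r n * (r - 1).factorial) := by gcongr
      _ = _ := by ring

end Pool.Agent.Results.MP_e3cf1a_co.AllUniformities
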